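import Pool.Agent.W298.QJ.Exp

set_option autoImplicit false
open Filter Topology Set Metric

namespace Pool.Agent.W298.QJ

open Pool.Agent.W261.QJ

lemma esc_ex (f : Polynomial ℂ) (hf : 2 ≤ f.natDegree) :
    ∃ R : ℝ, 0 < R ∧ ∀ z : ℂ, R ≤ ‖z‖ → 2 * ‖z‖ ≤ ‖f.eval z‖ := by
  have h1 : Tendsto (fun z : ℂ => ‖f.divX.eval z‖) (Bornology.cobounded ℂ) atTop := by
    apply Polynomial.tendsto_norm_atTop
    · rw [← Polynomial.natDegree_pos_iff_degree_pos,
        Polynomial.natDegree_divX_eq_natDegree_tsub_one]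
      omega
    · exact tendsto_norm_cobounded_atTop
  have h2 := (h1.eventually_ge_atTop 3).and
    ((tendsto_norm_cobounded_atTop (E := ℂ)).eventually_ge_atTop (‖f.coeff 0‖))
  obtain ⟨R, _, hR⟩ := Filter.hasBasis_cobounded_norm.eventually_iff.mp h2
  refine ⟨max R 1, lt_of_lt_of_le one_pos (le_max_right _ _), ?_⟩
  intro z hz
  obtain ⟨h3, h4⟩ := hR (show z ∈ {x : ℂ | R ≤ ‖x‖} from (le_max_left _ _).trans hz)
  have h5 : f.eval z = f.divX.eval z * z + f.coeff 0 := by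
    conv_lhs => rw [← Polynomial.divX_mul_X_add f]
    simp
  have h6 : ‖f.divX.eval z * z‖ ≤ ‖f.eval z‖ + ‖f.coeff 0‖ := by
    have h7 := norm_sub_le (f.eval z) (f.coeff 0)
    have h8 : f.eval z - f.coeff 0 = f.divX.eval z * z := by rw [h5]; ring
    rwa [h8] at h7
  rw [norm_mul] at h6
  nlinarith [norm_nonneg z]

lemma dbl (f : Polynomial ℂ) (R : ℝ) (hR0 : 0 < R)
    (hR : ∀ z : ℂ, R ≤ ‖z‖ → 2 * ‖z‖ ≤ ‖f.eval z‖) (n : ℕ) :
    ∀ z : ℂ, R ≤ ‖z‖ → 2 ^ n * ‖z‖ ≤ ‖it f n z‖ := by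
  induction n with
  | zero => intro z hz; simp [it_zero]
  | succ n ih =>
    intro z hz
    rw [it_succ]
    have h1 := hR z hz
    have h2 := ih (f.eval z) (by linarith)
    have h3 : (0 : ℝ) < 2 ^ n := by positivity
    rw [pow_succ]
    nlinarith

lemma it_add (f : Polynomial ℂ) (m n : ℕ) (z : ℂ) : it f (m + n) z = it f m (it f n z) := by
  unfold it
  rw [Function.iterate_add_apply]

lemma mem_FK_iff_bdd (f : Polynomial ℂ) (z : ℂ) :
    z ∈ FK f ↔ ∃ C : ℝ, ∀ n : ℕ, ‖it f n z‖ ≤ C := by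
  have h : z ∈ FK f ↔ Bornology.IsBounded
    (Set.range (fun n : ℕ => (fun w : ℂ => f.eval w)^[n] z)) := Iff.rfl
  rw [h, isBounded_iff_forall_norm_le]
  constructor
  · rintro ⟨C, hC⟩
    exact ⟨C, fun n => hC _ ⟨n, rfl⟩⟩
  · rintro ⟨C, hC⟩
    refine ⟨C, ?_⟩
    rintro _ ⟨n, rfl⟩
    exact hC n

lemma mem_lt (f : Polynomial ℂ) (R : ℝ) (hR0 : 0 < R)
    (hR : ∀ z : ℂ, R ≤ ‖z‖ → 2 * ‖z‖ ≤ ‖f.eval z‖) (z : ℂ) (hz : z ∈ FK f) (n : ℕ) :
    ‖it f n z‖ < R := by
  by_contra hcon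
  push Not at hcon
  obtain ⟨C, hC⟩ := (mem_FK_iff_bdd f z).mp hz
  obtain ⟨m, hm⟩ := pow_unbounded_of_one_lt (C / R) (one_lt_two (α := ℝ))
  have h1 := dbl f R hR0 hR m _ hcon
  rw [← it_add] at h1
  have h2 := hC (m + n)
  rw [div_lt_iff₀ hR0] at hm
  have h3 : (2 : ℝ) ^ m * R ≤ 2 ^ m * ‖it f n z‖ :=
    mul_le_mul_of_nonneg_left hcon (by positivity)
  linarith

lemma mem_iff_le (f : Polynomial ℂ) (R : ℝ) (hR0 : 0 < R)
    (hR : ∀ z : ℂ, R ≤ ‖z‖ → 2 * ‖z‖ ≤ ‖f.eval z‖) (z : ℂ) :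
    z ∈ FK f ↔ ∀ n : ℕ, ‖it f n z‖ ≤ R := by
  constructor
  · intro hz n
    exact (mem_lt f R hR0 hR z hz n).le
  · intro h
    exact (mem_FK_iff_bdd f z).mpr ⟨R, h⟩

lemma cont_it (f : Polynomial ℂ) (n : ℕ) : Continuous (it f n) := by
  have : it f n = fun z => (ip f n).eval z := by
    funext z
    rw [ip_eval]
  rw [this]
  exact (ip f n).continuous

lemma diff_it (f : Polynomial ℂ) (n : ℕ) : Differentiable ℂ (it f n) := by
  have : it f n = fun z => (ip f n).eval z := by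
    funext z
    rw [ip_eval]
  rw [this]
  exact (ip f n).differentiable

lemma closed_FK (f : Polynomial ℂ) (R : ℝ) (hR0 : 0 < R)
    (hR : ∀ z : ℂ, R ≤ ‖z‖ → 2 * ‖z‖ ≤ ‖f.eval z‖) : IsClosed (FK f) := by
  have : FK f = ⋂ n : ℕ, {z | ‖it f n z‖ ≤ R} := by
    ext z
    rw [mem_iff_le f R hR0 hR z, mem_iInter]
    rfl
  rw [this]
  exact isClosed_iInter fun n => isClosed_le (cont_it f n).norm continuous_const

lemma FK_inv (f : Polynomial ℂ) (z : ℂ) : f.eval z ∈ FK f ↔ z ∈ FK f := by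
  rw [mem_FK_iff_bdd, mem_FK_iff_bdd]
  constructor
  · rintro ⟨C, hC⟩
    refine ⟨max C ‖z‖, ?_⟩
    intro n
    rcases n with _ | n
    · exact le_max_right _ _
    · rw [it_succ]
      exact (hC n).trans (le_max_left _ _)
  · rintro ⟨C, hC⟩
    refine ⟨C, ?_⟩
    intro n
    rw [← it_succ]
    exact hC (n + 1)

lemma fixed_ex (f : Polynomial ℂ) (hf : 2 ≤ f.natDegree) : ∃ p : ℂ, f.eval p = p := by
  have h1 : (Polynomial.X : Polynomial ℂ).natDegree < f.natDegree := by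
    rw [Polynomial.natDegree_X]
    omega
  have h2 : (f - Polynomial.X).natDegree = f.natDegree :=
    Polynomial.natDegree_sub_eq_left_of_natDegree_lt h1
  obtain ⟨p, hp⟩ := IsAlgClosed.exists_root (f - Polynomial.X) (by
    intro h
    have := Polynomial.natDegree_eq_zero_iff_degree_le_zero.mpr h.le
    omega)
  refine ⟨p, ?_⟩
  rw [Polynomial.IsRoot.def, Polynomial.eval_sub, Polynomial.eval_X] at hp
  exact sub_eq_zero.mp hp

lemma fixed_mem (f : Polynomial ℂ) (p : ℂ) (hp : f.eval p = p) : p ∈ FK f := by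
  rw [mem_FK_iff_bdd]
  refine ⟨‖p‖, ?_⟩
  intro n
  have : it f n p = p := by
    induction n with
    | zero => rfl
    | succ n ih => rw [it_succ', ih, hp]
  rw [this]

lemma nontriv (f : Polynomial ℂ) (hf : 2 ≤ f.natDegree) : (FK f).Nontrivial := by
  obtain ⟨p, hp⟩ := fixed_ex f hf
  have hpK := fixed_mem f p hp
  by_contra hcon
  rw [Set.not_nontrivial_iff] at hcon
  have honly : ∀ z, f.eval z = p → z = p := by
    intro z hz
    apply hcon _ hpK
    rw [← FK_inv, hz]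
    exact hpK
  set g := f - Polynomial.C p with hg
  have hgd : g.natDegree = f.natDegree := Polynomial.natDegree_sub_C
  have hg0 : g ≠ 0 := by
    intro h
    rw [h, Polynomial.natDegree_zero] at hgd
    omega
  have hroots : g.roots = Multiset.replicate g.natDegree p := by
    rw [Multiset.eq_replicate]
    refine ⟨Polynomial.splits_iff_card_roots.mp (IsAlgClosed.splits g), ?_⟩
    intro b hb
    rw [Polynomial.mem_roots hg0, Polynomial.IsRoot.def, hg, Polynomial.eval_sub,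
      Polynomial.eval_C] at hb
    exact honly b (sub_eq_zero.mp hb)
  have hprod := Polynomial.C_leadingCoeff_mul_prod_multiset_X_sub_C
    (Polynomial.splits_iff_card_roots.mp (IsAlgClosed.splits g))
  rw [hroots, Multiset.map_replicate, Multiset.prod_replicate] at hprod
  have heval : ∀ z, f.eval z - p = g.leadingCoeff * (z - p) ^ g.natDegree := by
    intro z
    have h1 := congrArg (Polynomial.eval z) hprod
    rw [Polynomial.eval_mul, Polynomial.eval_pow, Polynomial.eval_sub, Polynomial.eval_C,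
      Polynomial.eval_X, Polynomial.eval_C] at h1
    rw [h1, hg, Polynomial.eval_sub, Polynomial.eval_C]
  set a := g.leadingCoeff with ha
  have ha0 : a ≠ 0 := Polynomial.leadingCoeff_ne_zero.mpr hg0
  have han : 0 < ‖a‖ := norm_pos_iff.mpr ha0
  set d := g.natDegree with hd
  have hd2 : 2 ≤ d := by omega
  -- radius of the invariant circle
  set ρ : ℝ := (1 / ‖a‖) ^ (((d - 1 : ℕ) : ℝ)⁻¹) with hρ
  have hρ0 : 0 < ρ := Real.rpow_pos_of_pos (by positivity) _
  have hρd : ρ ^ (d - 1) = 1 / ‖a‖ := by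
    rw [hρ, ← Real.rpow_natCast, ← Real.rpow_mul (by positivity), inv_mul_cancel₀,
      Real.rpow_one]
    have : (0 : ℝ) < ((d - 1 : ℕ) : ℝ) := by exact_mod_cast (by omega : 0 < d - 1)
    exact ne_of_gt this
  have hstep : ∀ z, ‖z - p‖ = ρ → ‖f.eval z - p‖ = ρ := by
    intro z hz
    rw [heval z, norm_mul, norm_pow, hz]
    have : ρ ^ d = ρ ^ (d - 1) * ρ := by
      rw [← pow_succ]
      congr 1
      omega
    rw [this, hρd]
    field_simp
  have horb : ∀ n : ℕ, ∀ z, ‖z - p‖ = ρ → ‖it f n z - p‖ = ρ := by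
    intro n
    induction n with
    | zero => intro z hz; exact hz
    | succ n ih => intro z hz; rw [it_succ]; exact ih _ (hstep z hz)
  have hz0 : ‖(p + (ρ : ℂ)) - p‖ = ρ := by
    rw [add_sub_cancel_left, Complex.norm_real, Real.norm_of_nonneg hρ0.le]
  have hmem : p + (ρ : ℂ) ∈ FK f := by
    rw [mem_FK_iff_bdd]
    refine ⟨ρ + ‖p‖, fun n => ?_⟩
    have h1 := horb n _ hz0
    have h2 := norm_add_le (it f n (p + (ρ : ℂ)) - p) p
    rw [sub_add_cancel, h1] at h2
    exact h2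
  have := hcon hmem hpK
  rw [this, sub_self, norm_zero] at hz0
  linarith

lemma ext_conn (M : ℝ) (hM : 0 ≤ M) : IsPreconnected {z : ℂ | M < ‖z‖} := by
  have h1 : IsPreconnected (sphere (0 : ℂ) 1) :=
    isPreconnected_sphere (by rw [Complex.rank_real_complex]; exact Nat.one_lt_ofNat) 0 1
  have h2 : IsPreconnected ((Ioi M) ×ˢ (sphere (0 : ℂ) 1)) := isPreconnected_Ioi.prod h1
  have h3 : IsPreconnected ((fun p : ℝ × ℂ => p.1 • p.2) '' ((Ioi M) ×ˢ (sphere (0 : ℂ) 1))) :=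
    h2.image _ (by fun_prop)
  have h4 : {z : ℂ | M < ‖z‖}
      = (fun p : ℝ × ℂ => p.1 • p.2) '' ((Ioi M) ×ˢ (sphere (0 : ℂ) 1)) := by
    ext z
    constructor
    · intro hz
      have hz' : M < ‖z‖ := hz
      have hz0 : ‖z‖ ≠ 0 := by linarith [norm_nonneg z] |> fun h : ‖z‖ > 0 => h.ne'
      refine ⟨(‖z‖, ‖z‖⁻¹ • z), ⟨hz', ?_⟩, ?_⟩
      · rw [mem_sphere_zero_iff_norm, norm_smul, norm_inv, norm_norm, inv_mul_cancel₀ hz0]
      · simp only
        rw [smul_smul, mul_inv_cancel₀ hz0, one_smul]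
    · rintro ⟨⟨r, w⟩, ⟨hr, hw⟩, rfl⟩
      have hw' : ‖w‖ = 1 := mem_sphere_zero_iff_norm.1 hw
      have hr' : M < r := hr
      show M < ‖r • w‖
      rw [norm_smul, hw', mul_one, Real.norm_of_nonneg (by linarith)]
      exact hr'
  rw [h4]; exact h3

lemma compl_conn (f : Polynomial ℂ) (R : ℝ) (hR0 : 0 < R)
    (hR : ∀ z : ℂ, R ≤ ‖z‖ → 2 * ‖z‖ ≤ ‖f.eval z‖) : IsConnected (FK f)ᶜ := by
  have hcl := closed_FK f R hR0 hR
  have hopen : IsOpen (FK f)ᶜ := hcl.isOpen_compl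
  have hE : {z : ℂ | R < ‖z‖} ⊆ (FK f)ᶜ := by
    intro z hz hzK
    have h1 := mem_lt f R hR0 hR z hzK 0
    rw [it_zero] at h1
    have h2 : R < ‖z‖ := hz
    linarith
  have hx0 : ((R + 1 : ℝ) : ℂ) ∈ {z : ℂ | R < ‖z‖} := by
    show R < ‖((R + 1 : ℝ) : ℂ)‖
    rw [Complex.norm_real, Real.norm_of_nonneg (by linarith)]
    linarith
  have hconn := ext_conn R hR0.le
  refine ⟨⟨_, hE hx0⟩, ?_⟩
  apply isPreconnected_of_forall ((R + 1 : ℝ) : ℂ)
  intro y hy
  set V := connectedComponentIn (FK f)ᶜ y with hV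
  have hyV : y ∈ V := mem_connectedComponentIn hy
  have hVo : IsOpen V := hopen.connectedComponentIn
  have hVs : V ⊆ (FK f)ᶜ := connectedComponentIn_subset _ _
  by_cases hmeet : (V ∩ {z : ℂ | R < ‖z‖}).Nonempty
  · obtain ⟨q, hq1, hq2⟩ := hmeet
    refine ⟨V ∪ {z : ℂ | R < ‖z‖}, union_subset hVs hE, Or.inr hx0, Or.inl hyV, ?_⟩
    exact isPreconnected_connectedComponentIn.union q hq1 hq2 hconn
  · exfalso
    have hVb : V ⊆ closedBall 0 R := by
      intro q hq
      rw [mem_closedBall, dist_zero_right]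
      by_contra h
      push Not at h
      exact hmeet ⟨q, hq, h⟩
    have hfr : frontier V ⊆ FK f := by
      intro q hq
      by_contra hqK
      have h1 : connectedComponentIn (FK f)ᶜ q ∈ 𝓝 q :=
        hopen.connectedComponentIn.mem_nhds (mem_connectedComponentIn hqK)
      obtain ⟨s, hs1, hs2⟩ := mem_closure_iff_nhds.mp (frontier_subset_closure hq) _ h1
      have h2 := connectedComponentIn_eq hs1
      have h3 := connectedComponentIn_eq hs2
      rw [hVo.frontier_eq] at hq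
      apply hq.2
      rw [hV, h3, ← h2]
      exact mem_connectedComponentIn hqK
    apply hVs hyV
    rw [mem_iff_le f R hR0 hR]
    intro n
    apply Complex.norm_le_of_forall_mem_frontier_norm_le (isBounded_closedBall.subset hVb)
      (diff_it f n).diffContOnCl _ (subset_closure hyV)
    intro q hq
    exact (mem_lt f R hR0 hR q (hfr hq) n).le

theorem base : S_base := by
  intro f hf
  obtain ⟨R, hR0, hR⟩ := esc_ex f hf
  have hcl := closed_FK f R hR0 hR
  have hsub : FK f ⊆ ball 0 R := by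
    intro z hz
    rw [mem_ball, dist_zero_right]
    exact mem_lt f R hR0 hR z hz 0
  have hcomp : IsCompact (FK f) :=
    (isCompact_closedBall (0 : ℂ) R).of_isClosed_subset hcl (hsub.trans ball_subset_closedBall)
  have hJK : FJ f ⊆ FK f := hcl.frontier_subset
  have hom : IsOpenMap (fun z : ℂ => f.eval z) :=
    (Polynomial.isOpenQuotientMap_eval f (by omega)).isOpenMap
  have hpre : (fun z : ℂ => f.eval z) ⁻¹' FK f = FK f := by
    ext z
    exact FK_inv f z
  refine ⟨hf, hcomp, hcomp.of_isClosed_subset isClosed_frontier hJK, hJK, nontriv f hf, ?_,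
    FK_inv f, ?_, ?_, ⟨R, hR0, hsub, hR⟩, ?_, compl_conn f R hR0 hR⟩
  · unfold FJ
    rw [nonempty_frontier_iff]
    refine ⟨(nontriv f hf).nonempty, ?_⟩
    intro h
    have h1 : ((R : ℝ) : ℂ) ∈ ball (0 : ℂ) R := hsub (by rw [h]; trivial)
    rw [mem_ball, dist_zero_right, Complex.norm_real, Real.norm_of_nonneg hR0.le] at h1
    exact lt_irrefl _ h1
  · intro z
    have h := hom.preimage_frontier_eq_frontier_preimage f.continuous (FK f)
    rw [hpre] at h
    show z ∈ (fun z : ℂ => f.eval z) ⁻¹' frontier (FK f) ↔ z ∈ frontier (FK f)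
    rw [h]
  · intro z
    have h := hom.preimage_interior_eq_interior_preimage f.continuous (FK f)
    rw [hpre] at h
    show z ∈ (fun z : ℂ => f.eval z) ⁻¹' interior (FK f) ↔ z ∈ interior (FK f)
    rw [h]
  · intro z hz
    have h1 : ∃ n, R ≤ ‖it f n z‖ := by
      by_contra hcon
      push Not at hcon
      exact hz ((mem_iff_le f R hR0 hR z).mpr fun n => (hcon n).le)
    obtain ⟨n, hn⟩ := h1
    rw [← tendsto_add_atTop_iff_nat n]
    apply tendsto_atTop_mono (f := fun m : ℕ => (2 : ℝ) ^ m * R)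
    · intro m
      rw [it_add]
      exact (mul_le_mul_of_nonneg_left hn (by positivity)).trans (dbl f R hR0 hR m _ hn)
    · exact (tendsto_pow_atTop_atTop_of_one_lt one_lt_two).atTop_mul_const hR0

end Pool.Agent.W298.QJ
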