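import Pool.Agent.W298.QJ.Inv

set_option autoImplicit false
open Filter Topology Set Metric

namespace Pool.Agent.W298.QJ

open Pool.Agent.W261.QJ

lemma ip_eval (f : Polynomial ℂ) (n : ℕ) (z : ℂ) : (ip f n).eval z = it f n z := by
  unfold ip it
  rw [Polynomial.iterate_comp_eval]
  simp

lemma ip_succ (f : Polynomial ℂ) (n : ℕ) : ip f (n + 1) = f.comp (ip f n) := by
  unfold ip
  rw [Function.iterate_succ_apply']

lemma ip_crit (f : Polynomial ℂ) (P : Set ℂ) (h : HS f P) (n : ℕ) (c : ℂ)
    (hc : (ip f n).derivative.eval c = 0) : it f n c ∈ P := by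
  induction n with
  | zero => simp [ip] at hc
  | succ n ih =>
    rw [ip_succ, Polynomial.derivative_comp, Polynomial.eval_mul, Polynomial.eval_comp,
      ip_eval] at hc
    rw [it_succ']
    rcases mul_eq_zero.mp hc with h1 | h1
    · exact h.inv _ (ih h1)
    · exact h.crit _ h1

lemma section_ex (f : Polynomial ℂ) (P : Set ℂ) (h : HS f P) (n : ℕ) (z : ℂ) (r : ℝ) (hr : 0 < r)
    (hd : ∀ q ∈ ball (it f n z) r, q ∉ P) :
    ∃ g : ℂ → ℂ, g (it f n z) = z ∧ ∀ q ∈ ball (it f n z) r, it f n (g q) = q ∧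
      HasDerivAt g ((ip f n).derivative.eval (g q))⁻¹ q := by
  classical
  set w := it f n z with hw
  have : LocallyPathConnectedSpace (ball w r) := isOpen_ball.locallyPathConnectedSpace
  have : ContractibleSpace (ball w r) :=
    (convex_ball w r).contractibleSpace ⟨w, mem_ball_self hr⟩
  have hcov := (ip f n).isCoveringMapOn_eval
  obtain ⟨F, ⟨hF1, hF2⟩, _⟩ := hcov.existsUnique_continuousMap_lifts
    (A := ball w r) ⟨Subtype.val, continuous_subtype_val⟩ (a₀ := ⟨w, mem_ball_self hr⟩)
    (e₀ := z) (by rw [ip_eval]; rfl) (by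
      rintro ⟨q, hq⟩
      show q ∈ ((ip f n).eval '' {k | (ip f n).derivative.eval k = 0})ᶜ
      rintro ⟨c, hc, hcq⟩
      apply hd q hq
      rw [← hcq]
      show (ip f n).eval c ∈ P
      rw [ip_eval]
      exact ip_crit f P h n c hc)
  let g : ℂ → ℂ := fun q => if h : q ∈ ball w r then F ⟨q, h⟩ else 0
  have hgF : ∀ (q : ℂ) (hq : q ∈ ball w r), g q = F ⟨q, hq⟩ := by
    intro q hq
    simp only [g]
    rw [dif_pos hq]
  have hright : ∀ q ∈ ball w r, it f n (g q) = q := by
    intro q hq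
    rw [hgF q hq, ← ip_eval]
    exact congrFun hF2 ⟨q, hq⟩
  have hcont : ContinuousOn g (ball w r) := by
    rw [continuousOn_iff_continuous_domRestrict]
    have : (ball w r).domRestrict g = F := by
      funext q
      exact hgF q.1 q.2
    rw [this]
    exact F.continuous
  refine ⟨g, ?_, ?_⟩
  · rw [hgF w (mem_ball_self hr)]
    exact hF1
  · intro q hq
    refine ⟨hright q hq, ?_⟩
    apply HasDerivAt.of_local_left_inverse (f := fun z => (ip f n).eval z)
    · exact hcont.continuousAt (isOpen_ball.mem_nhds hq)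
    · exact (ip f n).hasDerivAt (g q)
    · intro h0
      apply hd q hq
      have := ip_crit f P h n (g q) h0
      rwa [hright q hq] at this
    · filter_upwards [isOpen_ball.mem_nhds hq] with y hy
      rw [ip_eval]
      exact hright y hy

lemma pow_esc (f : Polynomial ℂ) (R : ℝ) (hR0 : 0 < R)
    (hR : ∀ z : ℂ, R ≤ ‖z‖ → 2 * ‖z‖ ≤ ‖f.eval z‖) (n : ℕ) :
    ∀ z : ℂ, R ≤ ‖z‖ → R ≤ ‖it f n z‖ := by
  induction n with
  | zero => intro z hz; exact hz
  | succ n ih =>
    intro z hz
    rw [it_succ]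
    apply ih
    have := hR z hz
    linarith

/-- points near `J` escape after a uniform time -/
lemma escape (f : Polynomial ℂ) (hB : Base f) (R s : ℝ) (hs : 0 < s) :
    ∃ n0 : ℕ, ∀ z ∈ FJ f, ∀ n : ℕ, n0 ≤ n → ∃ z' ∈ ball z s, R < ‖it f n z'‖ := by
  obtain ⟨t, htJ, htf, hcov⟩ := hB.compJ.finite_cover_balls (show 0 < s / 2 by positivity)
  have h1 : ∀ x ∈ t, ∀ᶠ n in atTop, ∃ z' ∈ ball x (s / 2), R < ‖it f n z'‖ := by
    intro x hx
    have hxc : x ∈ closure (FK f)ᶜ := by
      have := htJ hx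
      unfold FJ at this
      rw [frontier_eq_closure_inter_closure] at this
      exact this.2
    obtain ⟨z', hz', hd⟩ := Metric.mem_closure_iff.mp hxc (s / 2) (by positivity)
    have h2 := (hB.tend z' hz').eventually_gt_atTop R
    filter_upwards [h2] with n hn
    exact ⟨z', by rw [mem_ball, dist_comm]; exact hd, hn⟩
  have h2 := (Filter.eventually_all_finite htf).mpr h1
  obtain ⟨n0, hn0⟩ := eventually_atTop.mp h2
  refine ⟨n0, ?_⟩
  intro z hz n hn
  have hz2 := hcov hz
  simp only [mem_iUnion, exists_prop] at hz2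
  obtain ⟨x, hx, hzx⟩ := hz2
  obtain ⟨z', hz', hR⟩ := hn0 n hn x hx
  refine ⟨z', ?_, hR⟩
  rw [mem_ball] at hz' hzx ⊢
  have := dist_triangle z' x z
  rw [dist_comm z x] at hzx
  linarith

/-- quantitative openness of bounded injective maps with large derivative -/
lemma open_quant (g : ℂ → ℂ) (w : ℂ) (r R : ℝ) (hr : 0 < r) (hR : 0 < R)
    (hd : DifferentiableOn ℂ g (ball w r)) (hb : ∀ q ∈ ball w r, ‖g q‖ < R)
    (hinj : InjOn g (ball w r)) (hder : 1 / 2 ≤ ‖deriv g w‖) (t : ℝ) (ht0 : 0 < t) (htr : t < r)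
    (ht : (4 * R / r) / r * t ≤ 1 / 4) : ball (g w) (t / 8) ⊆ g '' closedBall w t := by
  have hw : w ∈ ball w r := mem_ball_self hr
  have hmaps : MapsTo g (ball w r) (closedBall (g w) (2 * R)) := by
    intro q hq
    rw [mem_closedBall, dist_eq_norm]
    have h1 := norm_sub_le (g q) (g w)
    have h2 := hb q hq
    have h3 := hb w hw
    linarith
  have hslope : ∀ q ∈ ball w r, ‖dslope g w q‖ ≤ 2 * R / r := fun q hq =>
    Complex.norm_dslope_le_div_of_mapsTo_ball hd hmaps hq
  have hdd : DifferentiableOn ℂ (dslope g w) (ball w r) :=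
    (Complex.differentiableOn_dslope (isOpen_ball.mem_nhds hw)).mpr hd
  have hmaps2 : MapsTo (dslope g w) (ball w r) (closedBall (dslope g w w) (4 * R / r)) := by
    intro q hq
    rw [mem_closedBall, dist_eq_norm]
    have h1 := norm_sub_le (dslope g w q) (dslope g w w)
    have h2 := hslope q hq
    have h3 := hslope w hw
    have : 4 * R / r = 2 * R / r + 2 * R / r := by ring
    linarith
  have hdc : DiffContOnCl ℂ g (ball w t) := by
    apply DifferentiableOn.diffContOnCl
    rw [closure_ball _ ht0.ne']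
    exact hd.mono (closedBall_subset_ball htr)
  have h := hdc.ball_subset_image_closedBall ht0 (ε := t / 4) (by
      intro q hq
      have hq1 : dist q w = t := hq
      have hqw : q ≠ w := by
        rintro rfl
        rw [dist_self] at hq1
        linarith
      have hqb : q ∈ ball w r := by rw [mem_ball, hq1]; exact htr
      have h1 := Complex.dist_le_div_mul_dist_of_mapsTo_ball hdd hmaps2 hqb
      rw [hq1, dist_eq_norm, dslope_same] at h1
      have h2 : ‖deriv g w‖ ≤ ‖dslope g w q‖ + ‖dslope g w q - deriv g w‖ := by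
        have := norm_sub_le (dslope g w q) (dslope g w q - deriv g w)
        rwa [sub_sub_cancel] at this
      have h3 : 1 / 4 ≤ ‖dslope g w q‖ := by linarith
      have h4 : g q - g w = (q - w) * dslope g w q := by
        rw [← smul_eq_mul, sub_smul_dslope]
      rw [h4, norm_mul, ← dist_eq_norm, hq1]
      nlinarith) (by
      have h1 : ∀ᶠ q in 𝓝[≠] w, g q ≠ g w := by
        have h2 : ∀ᶠ q in 𝓝[≠] w, q ∈ ball w r :=
          eventually_nhdsWithin_of_eventually_nhds (isOpen_ball.mem_nhds hw)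
        filter_upwards [h2, self_mem_nhdsWithin] with q hq hne heq
        exact hne (hinj hq hw heq)
      exact h1.frequently.filter_mono nhdsWithin_le_nhds)
  rwa [show t / 4 / 2 = t / 8 by ring] at h

lemma FK_ip (f : Polynomial ℂ) (hB : Base f) (m : ℕ) (hm : 1 ≤ m) : FK (ip f m) = FK f := by
  have hit : ∀ (k : ℕ) (z : ℂ), (fun w : ℂ => (ip f m).eval w)^[k] z = it f (m * k) z := by
    intro k z
    have h1 : (fun w : ℂ => (ip f m).eval w) = (fun w : ℂ => f.eval w)^[m] := by
      funext w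
      exact ip_eval f m w
    rw [h1, ← Function.iterate_mul]
    rfl
  ext z
  constructor
  · intro hz
    by_contra hcon
    have h1 := hB.tend z hcon
    have h2 : Tendsto (fun k : ℕ => m * k) atTop atTop := by
      apply tendsto_atTop_mono (f := fun k : ℕ => k) _ tendsto_id
      intro k
      exact Nat.le_mul_of_pos_left k hm
    have h3 := h1.comp h2
    have hz' : Bornology.IsBounded
      (Set.range (fun n : ℕ => (fun w : ℂ => (ip f m).eval w)^[n] z)) := hz
    obtain ⟨C, hC⟩ := hz'.exists_norm_le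
    obtain ⟨k, hk⟩ := (h3.eventually_gt_atTop C).exists
    have h4 := hC _ ⟨k, rfl⟩
    simp only [Function.comp] at hk
    simp only [hit] at h4
    linarith
  · intro hz
    have hz' : Bornology.IsBounded
      (Set.range (fun n : ℕ => (fun w : ℂ => f.eval w)^[n] z)) := hz
    show Bornology.IsBounded
      (Set.range (fun n : ℕ => (fun w : ℂ => (ip f m).eval w)^[n] z))
    refine hz'.subset ?_
    rintro _ ⟨k, rfl⟩
    simp only
    rw [hit]
    exact ⟨m * k, rfl⟩

/-- hyperbolic polynomials are expanding on the Julia set -/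
theorem exp : S_exp := by
  intro f P hP hB
  obtain ⟨δ, hδ0, hδ⟩ := hB.compJ.exists_thickening_subset_open hP.closed.isOpen_compl
    (fun x hx hxP => Set.disjoint_left.mp hP.disj hxP hx)
  obtain ⟨R, hR0, hKR, hR⟩ := hB.esc
  set R' : ℝ := R + δ with hR'
  have hR'0 : 0 < R' := by positivity
  have hRR : ∀ z : ℂ, R' ≤ ‖z‖ → 2 * ‖z‖ ≤ ‖f.eval z‖ := fun z hz => hR z (by linarith)
  -- choice of the radius
  obtain ⟨t, ht0, htδ, ht⟩ : ∃ t : ℝ, 0 < t ∧ t < δ ∧ (4 * R' / δ) / δ * t ≤ 1 / 4 := by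
    refine ⟨min (δ / 2) (δ * δ / (16 * R')), by positivity, ?_, ?_⟩
    · have := min_le_left (δ / 2) (δ * δ / (16 * R'))
      linarith
    · have h1 := min_le_right (δ / 2) (δ * δ / (16 * R'))
      calc (4 * R' / δ) / δ * min (δ / 2) (δ * δ / (16 * R'))
          ≤ (4 * R' / δ) / δ * (δ * δ / (16 * R')) :=
            mul_le_mul_of_nonneg_left h1 (by positivity)
        _ = 1 / 4 := by field_simp; norm_num
  obtain ⟨n0, hn0⟩ := escape f hB R' (t / 8) (by positivity)
  refine ⟨n0 + 1, by omega, ?_⟩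
  intro z hz
  have hz : z ∈ FJ f := by
    unfold FJ at hz ⊢
    rwa [FK_ip f hB (n0 + 1) (by omega)] at hz
  have hwJ := it_mem f hB hz (n0 + 1)
  have hball : ∀ q ∈ ball (it f (n0 + 1) z) δ, q ∉ P := by
    intro q hq
    exact hδ (mem_thickening_iff.mpr ⟨_, hwJ, hq⟩)
  obtain ⟨g, hgz, hg⟩ := section_ex f P hP (n0 + 1) z δ hδ0 hball
  have hbR : ∀ q ∈ ball (it f (n0 + 1) z) δ, ‖q‖ < R' := by
    intro q hq
    have h1 := hKR (hB.subJ hwJ)
    rw [mem_ball, dist_zero_right] at h1
    rw [mem_ball, dist_eq_norm] at hq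
    have h2 : ‖q‖ ≤ ‖q - it f (n0 + 1) z‖ + ‖it f (n0 + 1) z‖ := by
      have := norm_add_le (q - it f (n0 + 1) z) (it f (n0 + 1) z)
      rwa [sub_add_cancel] at this
    linarith
  by_contra hcon
  push Not at hcon
  have hder : deriv g (it f (n0 + 1) z) = ((ip f (n0 + 1)).derivative.eval z)⁻¹ := by
    have := (hg _ (mem_ball_self hδ0)).2.deriv
    rwa [hgz] at this
  have hne : (ip f (n0 + 1)).derivative.eval z ≠ 0 := by
    intro h0
    exact hball _ (mem_ball_self hδ0) (ip_crit f P hP (n0 + 1) z h0)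
  have hder2 : 1 / 2 ≤ ‖deriv g (it f (n0 + 1) z)‖ := by
    rw [hder, norm_inv, one_div]
    apply inv_anti₀ (norm_pos_iff.mpr hne) hcon.le
  have hsub := open_quant g (it f (n0 + 1) z) δ R' hδ0 hR'0
    (fun q hq => (hg q hq).2.differentiableAt.differentiableWithinAt)
    (by
      intro q hq
      by_contra h
      push Not at h
      have h1 := pow_esc f R' hR'0 hRR (n0 + 1) _ h
      rw [(hg q hq).1] at h1
      have := hbR q hq
      linarith)
    (by
      intro q hq q' hq' heq
      have h1 := (hg q hq).1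
      have h2 := (hg q' hq').1
      rw [← h1, ← h2, heq])
    hder2 t ht0 htδ ht
  rw [hgz] at hsub
  obtain ⟨z', hz', hbig⟩ := hn0 z hz (n0 + 1) (by omega)
  obtain ⟨q, hq, hgq⟩ := hsub hz'
  have hqb : q ∈ ball (it f (n0 + 1) z) δ := closedBall_subset_ball htδ hq
  have h1 := (hg q hqb).1
  rw [hgq] at h1
  rw [h1] at hbig
  have := hbR q hqb
  linarith

end Pool.Agent.W298.QJ
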