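import Pool.Agent.W261.QJ.Stm

set_option autoImplicit false
open Filter Topology Set Metric

namespace Pool.Agent.W298.QJ

open Pool.Agent.W261.QJ

lemma it_zero (f : Polynomial ℂ) (z : ℂ) : it f 0 z = z := rfl

lemma it_succ (f : Polynomial ℂ) (n : ℕ) (z : ℂ) : it f (n + 1) z = it f n (f.eval z) := by
  unfold it
  rw [Function.iterate_succ_apply]

lemma it_succ' (f : Polynomial ℂ) (n : ℕ) (z : ℂ) : it f (n + 1) z = f.eval (it f n z) := by
  unfold it
  rw [Function.iterate_succ_apply']

lemma it_mem (f : Polynomial ℂ) (hB : Base f) {x : ℂ} (hx : x ∈ FJ f) (n : ℕ) :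
    it f n x ∈ FJ f := by
  induction n with
  | zero => exact hx
  | succ n ih =>
    rw [it_succ']
    exact (hB.invJ _).mpr ih

lemma ex_pre (f : Polynomial ℂ) (ε : ℝ) (hB : Base f) (hL : Loc f ε) (n : ℕ) :
    ∀ x ∈ FJ f, ∀ q : ℂ, dist q (it f n x) < ε → ∃ w : ℂ, it f n w = q ∧ ∀ j ≤ n,
      dist (it f j w) (it f j x) ≤ (2 / 3 : ℝ) ^ (n - j) * dist q (it f n x) := by
  induction n with
  | zero =>
    intro x hx q hq
    refine ⟨q, rfl, ?_⟩
    intro j hj
    obtain rfl : j = 0 := by omega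
    simp [it_zero]
  | succ n ih =>
    intro x hx q hq
    rw [it_succ] at hq
    obtain ⟨w', hw', hn⟩ := ih (f.eval x) ((hB.invJ x).mpr hx) q hq
    have h0 := hn 0 (Nat.zero_le _)
    rw [it_zero, it_zero, Nat.sub_zero] at h0
    have hp1 : (2 / 3 : ℝ) ^ n ≤ 1 := pow_le_one₀ (by norm_num) (by norm_num)
    have h1 : dist w' (f.eval x) < ε := by
      refine lt_of_le_of_lt h0 (lt_of_le_of_lt ?_ hq)
      exact mul_le_of_le_one_left dist_nonneg hp1
    obtain ⟨w, hw, hwd⟩ := hL.onto x hx w' h1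
    refine ⟨w, ?_, ?_⟩
    · rw [it_succ, hw, hw']
    · intro j hj
      rcases j with _ | j
      · rw [it_zero, it_zero, Nat.sub_zero, it_succ]
        calc dist w x ≤ 2 / 3 * dist w' (f.eval x) := hwd
          _ ≤ 2 / 3 * ((2 / 3 : ℝ) ^ n * dist q (it f n (f.eval x))) := by
            apply mul_le_mul_of_nonneg_left h0 (by norm_num)
          _ = (2 / 3 : ℝ) ^ (n + 1) * dist q (it f n (f.eval x)) := by rw [pow_succ]; ring
      · rw [it_succ, it_succ, it_succ, hw, show n + 1 - (j + 1) = n - j by omega]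
        exact hn j (by omega)

lemma shadow (f : Polynomial ℂ) (ε : ℝ) (hB : Base f) (hL : Loc f ε) (n : ℕ) (x : ℂ)
    (hx : x ∈ FJ f) (w w' : ℂ) (hw : ∀ j ≤ n, dist (it f j w) (it f j x) < ε)
    (hw' : ∀ j ≤ n, dist (it f j w') (it f j x) < ε) (k : ℕ) (hk : k ≤ n) :
    dist (it f (n - k) w) (it f (n - k) w')
      ≤ (2 / 3 : ℝ) ^ k * dist (it f n w) (it f n w') := by
  induction k with
  | zero => simp
  | succ k ih =>
    have ih := ih (by omega)
    have e : n - k = (n - (k + 1)) + 1 := by omega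
    rw [e, it_succ', it_succ'] at ih
    have h1 := hw (n - (k + 1)) (by omega)
    have h2 := hw' (n - (k + 1)) (by omega)
    have h3 : infDist (it f (n - (k + 1)) w) (FJ f) < 2 * ε := by
      refine lt_of_le_of_lt (infDist_le_dist_of_mem (it_mem f hB hx (n - (k + 1)))) ?_
      have := hL.pos
      linarith
    have h4 : dist (it f (n - (k + 1)) w) (it f (n - (k + 1)) w') < 2 * ε := by
      have := dist_triangle_right (it f (n - (k + 1)) w) (it f (n - (k + 1)) w')
        (it f (n - (k + 1)) x)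
      linarith
    have h5 := hL.exp _ _ h3 h4
    rw [pow_succ]
    nlinarith

theorem inv : S_inv := by
  intro f ε hB hL x hx n
  have hex := ex_pre f ε hB hL n x hx
  classical
  let g : ℂ → ℂ := fun q => if h : dist q (it f n x) < ε then (hex q h).choose else 0
  have hg : ∀ q, dist q (it f n x) < ε → it f n (g q) = q ∧ ∀ j ≤ n,
      dist (it f j (g q)) (it f j x) ≤ (2 / 3 : ℝ) ^ (n - j) * dist q (it f n x) := by
    intro q h
    have : g q = (hex q h).choose := by
      simp only [g]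
      rw [dif_pos h]
    rw [this]
    exact (hex q h).choose_spec
  have hgs : ∀ q, dist q (it f n x) < ε → ∀ j ≤ n, dist (it f j (g q)) (it f j x) < ε := by
    intro q h j hj
    refine lt_of_le_of_lt ((hg q h).2 j hj) (lt_of_le_of_lt ?_ h)
    exact mul_le_of_le_one_left dist_nonneg (pow_le_one₀ (by norm_num) (by norm_num))
  refine ⟨g, ⟨?_, ?_, ?_, ?_⟩⟩
  · intro q hq
    exact (hg q hq).1
  · intro q hq
    exact (hg q hq).2
  · intro q hq q' hq'
    have h := shadow f ε hB hL n x hx (g q) (g q') (hgs q hq) (hgs q' hq') n le_rfl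
    rw [Nat.sub_self, it_zero, it_zero, (hg q hq).1, (hg q' hq').1] at h
    exact h
  · intro w hw
    have hq : dist (it f n w) (it f n x) < ε := hw n le_rfl
    have h := shadow f ε hB hL n x hx (g (it f n w)) w (hgs _ hq) hw n le_rfl
    rw [Nat.sub_self, it_zero, it_zero, (hg _ hq).1, dist_self, mul_zero] at h
    exact dist_le_zero.mp h

end Pool.Agent.W298.QJ
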