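import Pool.Agent.W261.QJ.Stm

set_option autoImplicit false
open Filter Topology Set Metric

namespace Pool.Agent.W298.QJ

open Pool.Agent.W261.QJ

lemma deriv_close (f : Polynomial ℂ) (J : Set ℂ) (hJ : IsCompact J) :
    ∃ δ : ℝ, 0 < δ ∧ ∀ p ∈ J, ∀ u : ℂ, dist u p < δ →
      ‖f.derivative.eval u - f.derivative.eval p‖ < 1 / 2 := by
  have h := hJ.uniformContinuousAt_of_continuousAt (fun z => f.derivative.eval z)
    (fun a _ => f.derivative.continuous.continuousAt)
    (Metric.dist_mem_uniformity (show (0 : ℝ) < 1 / 2 by norm_num))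
  obtain ⟨δ, hδ, h2⟩ := Metric.mem_uniformity_dist.mp h
  refine ⟨δ, hδ, ?_⟩
  intro p hp u hu
  have h3 := h2 (a := p) (b := u) (by rwa [dist_comm]) hp
  have h4 : dist (f.derivative.eval p) (f.derivative.eval u) < 1 / 2 := h3
  rw [dist_comm, dist_eq_norm] at h4
  exact h4

/-- expansion near a point of `J` -/
lemma expand (f : Polynomial ℂ) (J : Set ℂ) (hE : ∀ z ∈ J, 2 ≤ ‖f.derivative.eval z‖) (δ : ℝ)
    (hδ : ∀ p ∈ J, ∀ u : ℂ, dist u p < δ →
      ‖f.derivative.eval u - f.derivative.eval p‖ < 1 / 2)
    (p z w : ℂ) (hp : p ∈ J) (hz : dist z p < δ) (hw : dist w p < δ) :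
    3 / 2 * dist z w ≤ dist (f.eval z) (f.eval w) := by
  have h := (convex_ball p δ).norm_image_sub_le_of_norm_hasDerivWithin_le
    (f := fun u => f.eval u - f.derivative.eval p * u)
    (f' := fun u => f.derivative.eval u - f.derivative.eval p) (C := 1 / 2)
    (by
      intro u _
      have h1 := (f.hasDerivAt u)
      have h2 := (hasDerivAt_id u).const_mul (f.derivative.eval p)
      have h3 := (h1.sub h2).hasDerivWithinAt (s := ball p δ)
      rw [mul_one] at h3
      exact h3)
    (fun u hu => (hδ p hp u hu).le) (mem_ball.mpr hw) (mem_ball.mpr hz)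
  have h1 : f.eval z - f.derivative.eval p * z - (f.eval w - f.derivative.eval p * w)
      = (f.eval z - f.eval w) - f.derivative.eval p * (z - w) := by ring
  rw [h1] at h
  have h2 : ‖f.derivative.eval p * (z - w)‖ ≤ ‖f.eval z - f.eval w‖
      + ‖(f.eval z - f.eval w) - f.derivative.eval p * (z - w)‖ := by
    have := norm_sub_le (f.eval z - f.eval w)
      ((f.eval z - f.eval w) - f.derivative.eval p * (z - w))
    rwa [sub_sub_cancel] at this
  rw [norm_mul] at h2
  have h3 := mul_le_mul_of_nonneg_right (hE p hp) (norm_nonneg (z - w))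
  rw [dist_eq_norm, dist_eq_norm]
  linarith

theorem loc : S_loc := by
  intro f hB hE
  obtain ⟨δ, hδ0, hδ⟩ := deriv_close f (FJ f) hB.compJ
  obtain ⟨R, hR0, hKR, hR⟩ := hB.esc
  have hJne := hB.neJ
  set e1 : ℝ := δ / 4 with he1
  have he1p : 0 < e1 := by positivity
  -- expansion
  have hexp : ∀ z w : ℂ, infDist z (FJ f) < 2 * e1 → dist z w < 2 * e1 →
      3 / 2 * dist z w ≤ dist (f.eval z) (f.eval w) := by
    intro z w hz hw
    obtain ⟨p, hp, hzp⟩ := (infDist_lt_iff hJne).mp hz
    apply expand f (FJ f) hE δ hδ p z w hp (by linarith)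
    have := dist_triangle w z p
    rw [dist_comm w z] at this
    linarith
  -- local onto
  have honto : ∀ z : ℂ, infDist z (FJ f) < e1 → ∀ q : ℂ, dist q (f.eval z) < e1 →
      ∃ w : ℂ, f.eval w = q ∧ dist w z ≤ 2 / 3 * dist q (f.eval z) := by
    intro z hz q hq
    rcases eq_or_lt_of_le (dist_nonneg (x := q) (y := f.eval z)) with h0 | h0
    · refine ⟨z, ?_, ?_⟩
      · exact (dist_eq_zero.mp h0.symm).symm
      · rw [← h0, dist_self, mul_zero]
    set ρ : ℝ := 2 / 3 * dist q (f.eval z) with hρ
    have hρ0 : 0 < ρ := by positivity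
    have hρ1 : ρ < e1 := by
      have : ρ ≤ dist q (f.eval z) := by rw [hρ]; linarith
      linarith
    have hexp2 : ∀ u ∈ closedBall z ρ, 3 / 2 * dist u z ≤ dist (f.eval u) (f.eval z) := by
      intro u hu
      rw [mem_closedBall] at hu
      have := hexp z u (by linarith) (by rw [dist_comm]; linarith)
      rwa [dist_comm z u, dist_comm (f.eval z)] at this
    have hopen : IsOpen ((fun u => f.eval u) '' ball z ρ) := by
      rw [isOpen_iff_mem_nhds]
      rintro y ⟨u, hu, rfl⟩
      obtain ⟨p, hp, hzp⟩ := (infDist_lt_iff hJne).mp hz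
      have hup : dist u p < δ := by
        have := dist_triangle u z p
        rw [mem_ball] at hu
        linarith
      have h1 := hδ p hp u hup
      have h2 := hE p hp
      have h3 : f.derivative.eval u ≠ 0 := by
        intro h
        rw [h, zero_sub, norm_neg] at h1
        linarith
      have h4 := (f.hasStrictDerivAt u).map_nhds_eq h3
      rw [← h4]
      exact image_mem_map (isOpen_ball.mem_nhds hu)
    have hcl : IsCompact ((fun u => f.eval u) '' closedBall z ρ) :=
      (isCompact_closedBall z ρ).image f.continuous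
    have hsub : ball (f.eval z) (3 / 2 * ρ) ⊆ (fun u => f.eval u) '' ball z ρ := by
      apply (convex_ball (f.eval z) (3 / 2 * ρ)).isPreconnected.subset_of_closure_inter_subset
        hopen
      · exact ⟨f.eval z, mem_ball_self (by positivity), z, mem_ball_self hρ0, rfl⟩
      · rintro y ⟨hy1, hy2⟩
        have h1 : y ∈ (fun u => f.eval u) '' closedBall z ρ :=
          closure_minimal (image_mono ball_subset_closedBall) hcl.isClosed hy1
        obtain ⟨u, hu, rfl⟩ := h1
        have h2 := hexp2 u hu
        rw [mem_ball] at hy2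
        exact ⟨u, by rw [mem_ball]; simp only at hy2; linarith, rfl⟩
    have hq2 : q ∈ closure (ball (f.eval z) (3 / 2 * ρ)) := by
      rw [closure_ball _ (by positivity)]
      rw [mem_closedBall, hρ]
      linarith
    have hq3 : q ∈ (fun u => f.eval u) '' closedBall z ρ :=
      closure_minimal (hsub.trans (image_mono ball_subset_closedBall)) hcl.isClosed hq2
    obtain ⟨w, hw, hwq⟩ := hq3
    exact ⟨w, hwq, hw⟩
  -- back
  obtain ⟨e, he0, hee1, hback⟩ : ∃ e : ℝ, 0 < e ∧ e ≤ e1 ∧
      ∀ z : ℂ, infDist (f.eval z) (FJ f) < e → infDist z (FJ f) < e1 := by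
    have hA : IsCompact (closedBall (0 : ℂ) R ∩ {z | e1 ≤ infDist z (FJ f)}) :=
      (isCompact_closedBall 0 R).inter_right
        (isClosed_le continuous_const (continuous_infDist_pt (FJ f)))
    obtain ⟨m, hm0, hm⟩ := hA.exists_forall_le' (f := fun z => infDist (f.eval z) (FJ f))
      (a := 0) ((continuous_infDist_pt (FJ f)).comp f.continuous).continuousOn (by
        rintro z ⟨_, hz⟩
        apply lt_of_le_of_ne infDist_nonneg
        intro h
        have h1 : f.eval z ∈ FJ f := (hB.compJ.isClosed.mem_iff_infDist_zero hJne).mpr h.symm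
        have h2 := (hB.invJ z).mp h1
        have h3 := (hB.compJ.isClosed.mem_iff_infDist_zero hJne).mp h2
        simp only [mem_ofPred_eq] at hz
        linarith)
    refine ⟨min e1 (min m R), lt_min he1p (lt_min hm0 hR0), min_le_left _ _, ?_⟩
    intro z hz
    by_contra hcon
    push Not at hcon
    by_cases hzR : ‖z‖ ≤ R
    · have := hm z ⟨by simpa using hzR, hcon⟩
      have h2 := lt_of_lt_of_le hz ((min_le_right _ _).trans (min_le_left _ _))
      linarith
    · push Not at hzR
      have h1 := hR z hzR.le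
      have h2 := lt_of_lt_of_le hz ((min_le_right _ _).trans (min_le_right _ _))
      obtain ⟨p, hp, hd⟩ := (infDist_lt_iff hJne).mp h2
      have h3 := hKR (hB.subJ hp)
      rw [mem_ball, dist_zero_right] at h3
      have h4 : ‖f.eval z‖ ≤ dist (f.eval z) p + ‖p‖ := by
        rw [dist_eq_norm]
        have := norm_add_le (f.eval z - p) p
        rwa [sub_add_cancel] at this
      linarith
  refine ⟨e, ⟨he0, ?_, ?_, ?_⟩⟩
  · intro z w hz hw
    exact hexp z w (by linarith) (by linarith)
  · intro z hz q hq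
    apply honto z _ q (by linarith)
    rw [(hB.compJ.isClosed.mem_iff_infDist_zero hJne).mp hz]
    exact he1p
  · intro z hz
    have h1 := hback z hz
    obtain ⟨p, hp, hpd⟩ := hB.compJ.exists_infDist_eq_dist hJne (f.eval z)
    obtain ⟨w, hw, hwd⟩ := honto z h1 p (by rw [dist_comm, ← hpd]; linarith)
    have hwJ : w ∈ FJ f := (hB.invJ w).mp (by rw [hw]; exact hp)
    calc infDist z (FJ f) ≤ dist z w := infDist_le_dist_of_mem hwJ
      _ = dist w z := dist_comm _ _
      _ ≤ 2 / 3 * dist p (f.eval z) := hwd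
      _ = 2 / 3 * infDist (f.eval z) (FJ f) := by rw [hpd, dist_comm]

end Pool.Agent.W298.QJ
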